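import Pool.Agent.Helper69.RG.St
import Pool.Agent.Helper84.LE.BGR
import Pool.Agent.Helper22.NL.M_Basic
import Pool.Agent.Helper22.NL.M_Clu

/-!
# RG module R1: comparison of quadratic forms and Cauchy-Schwarz
-/

set_option autoImplicit false
set_option linter.unusedSectionVars false

open scoped BigOperators ENNReal
open Pool.LE Pool.NL

namespace Pool.RG

namespace R1M

variable {V : Type} [DecidableEq V]

/-- the quadratic form of one configuration -/
noncomputable def Q (L : Finset V) (W : Finset V → ℝ) (ω : Finset (Sym2 V)) (a b : V → ℝ) : ℝ :=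
  ∑ x ∈ L, ∑ y ∈ L, ind (con ω x y) * W (clu L ω x) * (a x * b y)

theorem ind_symm (ω : Finset (Sym2 V)) (x y : V) : ind (con ω x y) = ind (con ω y x) := by
  have h : con ω x y ↔ con ω y x := ⟨con_symm, con_symm⟩
  rw [show (con ω x y) = (con ω y x) from propext h]

theorem clu_eq {L : Finset V} {ω : Finset (Sym2 V)} {x y : V} (h : con ω x y) :
    clu L ω x = clu L ω y := by
  ext z
  rw [mem_Clu, mem_Clu]
  exact ⟨fun hz => ⟨hz.1, con_trans (con_symm h) hz.2⟩, fun hz => ⟨hz.1, con_trans h hz.2⟩⟩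

theorem ind_clu (L : Finset V) (W : Finset V → ℝ) (ω : Finset (Sym2 V)) (x y : V) :
    ind (con ω x y) * W (clu L ω x) = ind (con ω x y) * W (clu L ω y) := by
  by_cases h : con ω x y
  · rw [clu_eq h]
  · simp [ind, h]

/-- the sum over the cluster -/
theorem sum_clu (L : Finset V) (ω : Finset (Sym2 V)) (x : V) (f : V → ℝ) :
    ∑ y ∈ clu L ω x, f y = ∑ y ∈ L, ind (con ω x y) * f y := by
  classical
  unfold clu
  rw [Finset.sum_filter]
  refine Finset.sum_congr rfl fun y _ => ?_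
  unfold ind
  by_cases h : con ω x y
  · simp [h]
  · simp [h]

theorem Q_eq (L : Finset V) (W : Finset V → ℝ) (ω : Finset (Sym2 V)) (a b : V → ℝ) :
    Q L W ω a b = ∑ x ∈ L, a x * (W (clu L ω x) * ∑ y ∈ clu L ω x, b y) := by
  unfold Q
  refine Finset.sum_congr rfl fun x _ => ?_
  rw [sum_clu, Finset.mul_sum, Finset.mul_sum]
  exact Finset.sum_congr rfl fun y _ => by ring

theorem Q_symm (L : Finset V) (W : Finset V → ℝ) (ω : Finset (Sym2 V)) (a b : V → ℝ) :
    Q L W ω a b = Q L W ω b a := by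
  unfold Q
  rw [Finset.sum_comm]
  refine Finset.sum_congr rfl fun x _ => Finset.sum_congr rfl fun y _ => ?_
  rw [ind_clu, ind_symm]
  ring

theorem Q_quad (L : Finset V) (W : Finset V → ℝ) (ω : Finset (Sym2 V)) (a b : V → ℝ) (t : ℝ) :
    Q L W ω (fun x => a x - t * b x) (fun x => a x - t * b x) =
      Q L W ω a a - 2 * t * Q L W ω a b + t ^ 2 * Q L W ω b b := by
  have h1 : Q L W ω (fun x => a x - t * b x) (fun x => a x - t * b x) =
      Q L W ω a a - t * Q L W ω a b - t * Q L W ω b a + t ^ 2 * Q L W ω b b := by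
    unfold Q
    rw [Finset.mul_sum, Finset.mul_sum, Finset.mul_sum, ← Finset.sum_sub_distrib,
      ← Finset.sum_sub_distrib, ← Finset.sum_add_distrib]
    refine Finset.sum_congr rfl fun x _ => ?_
    rw [Finset.mul_sum, Finset.mul_sum, Finset.mul_sum, ← Finset.sum_sub_distrib,
      ← Finset.sum_sub_distrib, ← Finset.sum_add_distrib]
    exact Finset.sum_congr rfl fun y _ => by ring
  rw [h1, Q_symm L W ω b a]
  ring

/-- grouping by clusters -/
theorem Q_group (L : Finset V) (W : Finset V → ℝ) (ω : Finset (Sym2 V)) (a : V → ℝ) :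
    Q L W ω a a = ∑ S ∈ L.image (clu L ω), W S * (∑ y ∈ S, a y) ^ 2 := by
  classical
  rw [Q_eq, ← Finset.sum_fiberwise_of_maps_to
    (fun x hx => Finset.mem_image_of_mem (clu L ω) hx)]
  refine Finset.sum_congr rfl fun S hS => ?_
  obtain ⟨x₀, hx₀, rfl⟩ := Finset.mem_image.1 hS
  have h1 : L.filter (fun x => clu L ω x = clu L ω x₀) = clu L ω x₀ := by
    ext z
    rw [Finset.mem_filter, mem_Clu]
    constructor
    · rintro ⟨hz, h⟩
      refine ⟨hz, ?_⟩
      have h2 : z ∈ clu L ω z := mem_Clu.2 ⟨hz, con_refl ω z⟩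
      rw [h] at h2
      exact (mem_Clu.1 h2).2
    · rintro ⟨hz, h⟩
      exact ⟨hz, (clu_eq h).symm⟩
  rw [h1]
  have h3 : ∀ x ∈ clu L ω x₀, a x * (W (clu L ω x) * ∑ y ∈ clu L ω x, a y) =
      a x * (W (clu L ω x₀) * ∑ y ∈ clu L ω x₀, a y) := by
    intro x hx
    rw [clu_eq (mem_Clu.1 hx).2]
  rw [Finset.sum_congr rfl h3, ← Finset.sum_mul]
  ring

theorem Q_nonneg (L : Finset V) {W : Finset V → ℝ} (hW : ∀ S, 0 ≤ W S) (ω : Finset (Sym2 V))
    (a : V → ℝ) : 0 ≤ Q L W ω a a := by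
  rw [Q_group]
  exact Finset.sum_nonneg fun S _ => mul_nonneg (hW S) (sq_nonneg _)

theorem Q_le (L : Finset V) {W : Finset V → ℝ} {c : ℝ} (hW : ∀ S, W S ≤ c) (ω : Finset (Sym2 V))
    (a : V → ℝ) : Q L W ω a a ≤ c * Q L (fun _ => 1) ω a a := by
  rw [Q_group, Q_group, Finset.mul_sum]
  refine Finset.sum_le_sum fun S _ => ?_
  have h := mul_le_mul_of_nonneg_right (hW S) (sq_nonneg (∑ y ∈ S, a y))
  linarith

/-- pairing with `uW` -/
theorem pair (E : Finset (Sym2 V)) (p : ℝ) (L : Finset V) (W : Finset V → ℝ) (ψ a : V → ℝ) :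
    ∑ x ∈ L, a x * uW E p L W ψ x = ex E p (fun ω => Q L W ω a ψ) := by
  have h1 : (fun ω => Q L W ω a ψ) =
      fun ω => ∑ x ∈ L, a x * (W (clu L ω x) * ∑ y ∈ clu L ω x, ψ y) := by
    funext ω
    exact Q_eq L W ω a ψ
  rw [h1, Basic.ex_sum]
  refine Finset.sum_congr rfl fun x _ => ?_
  rw [Basic.ex_mul]
  rfl

theorem pairG (E : Finset (Sym2 V)) (p : ℝ) (L : Finset V) (a b : V → ℝ) :
    ∑ x ∈ L, a x * ∑ y ∈ L, cp E p x y * b y = ex E p (fun ω => Q L (fun _ => 1) ω a b) := by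
  unfold Q
  rw [Basic.ex_sum]
  refine Finset.sum_congr rfl fun x _ => ?_
  rw [Basic.ex_sum, Finset.mul_sum]
  refine Finset.sum_congr rfl fun y _ => ?_
  have h1 : (fun ω => ind (con ω x y) * 1 * (a x * b y)) =
      fun ω => (a x * b y) * ind (con ω x y) := by
    funext ω
    ring
  rw [h1, Basic.ex_mul]
  have h2 : cp E p x y = ex E p (fun ω => ind (con ω x y)) := rfl
  rw [h2]
  ring

end R1M

open R1M in
theorem hR1 : SR1 := by
  intro V _ L E D p _ h0 h1 W ψ c H hW hH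
  classical
  set u : V → ℝ := fun x => uW E p L W ψ x with hu
  set b : V → ℝ := fun y => ∑ z ∈ L, H y z * u z with hb
  have hc : 0 ≤ c := le_trans (hW ∅).1 (hW ∅).2
  -- G b = u
  have hGb : ∀ x ∈ L, ∑ y ∈ L, cp E p x y * b y = u x := by
    intro x hx
    have h2 : ∑ y ∈ L, cp E p x y * b y = ∑ z ∈ L, (∑ y ∈ L, cp E p x y * H y z) * u z := by
      simp only [hb, Finset.mul_sum, Finset.sum_mul]
      rw [Finset.sum_comm]
      exact Finset.sum_congr rfl fun z _ => Finset.sum_congr rfl fun y _ => by ring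
    rw [h2, Finset.sum_congr rfl fun z hz => by rw [hH x hx z hz]]
    rw [Finset.sum_eq_single x]
    · rw [if_pos rfl, one_mul]
    · intro z _ hz
      rw [if_neg (fun h => hz h.symm), zero_mul]
    · intro h
      exact absurd hx h
  -- X
  have hX1 : ∑ x ∈ L, ∑ y ∈ L, uW E p L W ψ x * H x y * uW E p L W ψ y =
      ∑ x ∈ L, b x * uW E p L W ψ x := by
    refine Finset.sum_congr rfl fun x _ => ?_
    simp only [hb, hu]
    rw [Finset.sum_mul]
    exact Finset.sum_congr rfl fun y _ => by ring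
  have hX2 : ∑ x ∈ L, b x * uW E p L W ψ x = ex E p (fun ω => Q L W ω b ψ) :=
    pair E p L W ψ b
  have hX3 : ∑ x ∈ L, b x * uW E p L W ψ x = ex E p (fun ω => Q L (fun _ => 1) ω b b) := by
    rw [← pairG]
    refine Finset.sum_congr rfl fun x hx => ?_
    rw [hGb x hx]
  have hY : ∑ x ∈ L, ψ x * uW E p L W ψ x = ex E p (fun ω => Q L W ω ψ ψ) := pair E p L W ψ ψ
  rw [hX1, hY]
  set X := ∑ x ∈ L, b x * uW E p L W ψ x with hX
  set Y := ex E p (fun ω => Q L W ω ψ ψ) with hY'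
  set B := ex E p (fun ω => Q L W ω b b) with hB
  have hBX : B ≤ c * X := by
    rw [hX3, hB, ← Basic.ex_mul]
    exact Basic.ex_mono h0 h1 fun ω _ => Q_le L (fun S => (hW S).2) ω b
  have hq : ∀ t : ℝ, 0 ≤ Y - 2 * t * X + t ^ 2 * B := by
    intro t
    have h2 : ex E p (fun ω => Q L W ω (fun x => ψ x - t * b x) (fun x => ψ x - t * b x)) =
        Y - 2 * t * X + t ^ 2 * B := by
      have h3 : (fun ω => Q L W ω (fun x => ψ x - t * b x) (fun x => ψ x - t * b x)) =
          fun ω => (Q L W ω ψ ψ - 2 * t * Q L W ω b ψ) + t ^ 2 * Q L W ω b b := by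
        funext ω
        rw [Q_quad, Q_symm L W ω ψ b]
      rw [h3, Basic.ex_add, Basic.ex_sub, Basic.ex_mul, Basic.ex_mul, ← hX2]
    rw [← h2]
    have h4 := Basic.ex_mono (E := E) h0 h1 (f := fun _ => (0 : ℝ))
      (g := fun ω => Q L W ω (fun x => ψ x - t * b x) (fun x => ψ x - t * b x))
      (fun ω _ => Q_nonneg L (fun S => (hW S).1) ω _)
    rw [Basic.ex_const] at h4
    exact h4
  rcases hc.eq_or_lt with hc0 | hc0
  · -- c = 0
    have hB0 : B ≤ 0 := by rw [← hc0, zero_mul] at hBX; exact hBX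
    rw [← hc0, zero_mul]
    by_contra hX0
    push Not at hX0
    have h5 := hq ((Y + 1) / X)
    have h6 : 2 * ((Y + 1) / X) * X = 2 * (Y + 1) := by
      field_simp
    have h7 : ((Y + 1) / X) ^ 2 * B ≤ 0 := mul_nonpos_of_nonneg_of_nonpos (sq_nonneg _) hB0
    have h8 := hq 0
    rw [h6] at h5
    nlinarith
  · have h5 := hq (1 / c)
    have h6 : (1 / c) ^ 2 * B ≤ (1 / c) ^ 2 * (c * X) :=
      mul_le_mul_of_nonneg_left hBX (sq_nonneg _)
    have h7 : (1 / c) ^ 2 * (c * X) = X / c := by field_simp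
    have h8 : 2 * (1 / c) * X = 2 * (X / c) := by ring
    rw [h8] at h5
    rw [h7] at h6
    have h9 : X / c ≤ Y := by linarith
    rw [div_le_iff₀ hc0] at h9
    linarith

end Pool.RG
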